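import Pool.Agent.Work.MP_cb380d_sf.Proof

/-!
# MP_cb380d_lc, SimpleShadows: images of sets, the final theorem
-/

set_option autoImplicit false

open Pool.IC Pool.GL Pool.TL Pool.EV Polynomial

namespace Pool.SF

theorem dcd_enc (x w : Str) : dcd (un x.length ++ false :: (x ++ w)) = x := by
  unfold dcd
  rw [HVA_rst, HVA_lead, List.take_left]

theorem rest_enc (x w : Str) : (rst (un x.length ++ false :: (x ++ w))).drop
    (lead (un x.length ++ false :: (x ++ w))) = w := by
  rw [HVA_rst, HVA_lead, List.drop_left]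

theorem length_enc (x w : Str) :
    (un x.length ++ false :: (x ++ w) : Str).length = 2 * x.length + 1 + w.length := by
  rw [List.length_append, List.length_cons, List.length_append, List.length_replicate]
  omega

/-- The image of a set in NP under an honest polynomial-time function is in NP. -/
theorem image_np (B K : Set Str) (φ : Str → Str) (hφ : PolyFun B φ) (hh : Honest φ)
    (hK : InNP B K) : InNP B (φ '' K) := by
  obtain ⟨h, hh⟩ := hh
  obtain ⟨V, r, hV, hr, hVK⟩ := t_NPD B K hK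
  obtain ⟨hlead, hrst, -, hdcd, -⟩ := t_PLF B
  have hφP : PolyF B φ := (polyFun_iff_polyF φ).1 hφ
  have hP : ∀ n : ℕ, (2 * h + 1 + r.comp h).eval n = 2 * h.eval n + 1 + r.eval (h.eval n) := by
    intro n
    simp [eval_comp]
  have hlen : PolyF B (fun p : Str × Str => (2 * h + 1 + r.comp h).eval p.2.length) :=
    PolyF.polyEval _ (by fun_prop)
  refine t_NPE B (φ '' K) (fun p => decide (φ (dcd p.1) = p.2) &&
    V ((rst p.1).drop (lead p.1), dcd p.1) &&
    decide (p.1.length ≤ (2 * h + 1 + r.comp h).eval p.2.length)) (2 * h + 1 + r.comp h) ?_ ?_ ?_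
  · fun_prop
  · intro y z hyz
    simp only [Bool.and_eq_true, decide_eq_true_eq] at hyz
    exact hyz.2
  · intro z
    constructor
    · rintro ⟨x, hx, rfl⟩
      obtain ⟨w, hw⟩ := (hVK x).1 hx
      refine ⟨un x.length ++ false :: (x ++ w), ?_⟩
      simp only [Bool.and_eq_true, decide_eq_true_eq]
      rw [dcd_enc, rest_enc, length_enc, hP]
      have h1 := hh x
      have h2 := hr w x hw
      have h3 : r.eval x.length ≤ r.eval (h.eval (φ x).length) := poly_mono r h1
      exact ⟨⟨rfl, hw⟩, by omega⟩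
    · rintro ⟨y, hy⟩
      simp only [Bool.and_eq_true, decide_eq_true_eq] at hy
      exact ⟨dcd y, (hVK _).2 ⟨_, hy.1.2⟩, hy.1.1⟩

/-- A reduction `g` to `K` gives the reduction `φ ∘ g` to `φ '' K` with the shadow `g`. -/
theorem image_shadow (B L K : Set Str) (g φ : Str → Str) (hK : Karp B L K g) (hG : Simple B g)
    (hφ : PolyFun B φ) (hi : Function.Injective φ) (hh : Honest φ) :
    Karp B L (φ '' K) (fun z => φ (g z)) ∧ Shadow B L (fun z => φ (g z)) g := by
  have hφP : PolyF B φ := (polyFun_iff_polyF φ).1 hφ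
  have hgP : PolyF B g := (polyFun_iff_polyF g).1 hK.1
  obtain ⟨h, hh⟩ := hh
  refine ⟨⟨(polyFun_iff_polyF _).2 (PolyF.comp (f := φ) (g := g) hφP hgP), fun z => ?_⟩,
    hG, fun z z' he => hi he, fun z z' he => ?_, h, fun z => hh (g z)⟩
  · rw [hK.2 z, Function.Injective.mem_set_image hi]
  · rw [hK.2 z, hK.2 z', he]

/-- Sensitivity at most one. -/
theorem low_of_one (g : Str → Str) (h : ∀ (z : Str) (b : ℕ),
    ((Finset.range z.length).filter fun v => (g (z.modify v not))[b]? ≠ (g z)[b]?).card ≤ 1) :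
    LowSensitivity g := by
  refine ⟨1, 1, Nat.one_pos, fun z b => ?_⟩
  have h1 := h z b
  rw [pow_one, Nat.sub_self, pow_zero, Nat.mul_one]
  exact h1

theorem final (B : Set Str) :
    (∀ D : Set Str, InNP B D → ∃ L : Set Str, InNP B L ∧
      ∀ (A : Set Str) (g g₀ : Str → Str), Karp B L A g → Shadow B L g g₀ →
        (∃ f : Str → Str, OneLi B D A f) ∧ (Visible B g g₀ → ∃ f : Str → Str, Strong B D A f)) ∧
    (∀ A A' : Set Str, ShadowComplete B A → ShadowComplete B A' → PseudoIso B A A') ∧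
    (∀ A A' : Set Str, VisibleComplete B A → VisibleComplete B A' → PIso B A A') ∧
    ∃ K : Set Str, InNP B K ∧
      (∀ L : Set Str, InNP B L → ∃ g : Str → Str, Karp B L K g ∧
        ∀ (z : Str) (b : ℕ), ((Finset.range z.length).filter fun v =>
          (g (z.modify v not))[b]? ≠ (g z)[b]?).card ≤ 1) ∧
      ∀ φ : Str → Str, PolyFun B φ → Function.Injective φ → Honest φ →
        ShadowComplete B (φ '' K) := by
  have one : ∀ D : Set Str, InNP B D → ∃ L : Set Str, InNP B L ∧
      ∀ (A : Set Str) (g g₀ : Str → Str), Karp B L A g → Shadow B L g g₀ →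
        (∃ f : Str → Str, OneLi B D A f) ∧
          (Visible B g g₀ → ∃ f : Str → Str, Strong B D A f) := fun D hD =>
    ⟨lang3 (pds D), t_NP3 B _ (pds_np B D hD), fun A g g₀ hK hS => main B D A g g₀ hK hS⟩
  have two : ∀ A A' : Set Str, InNP B A → ShadowComplete B A' → ∃ f : Str → Str, OneLi B A A' f := by
    intro A A' hA hA'
    obtain ⟨L, hL, hall⟩ := one A hA
    obtain ⟨g, g₀, hK, hS⟩ := hA'.2 L hL
    exact (hall A' g g₀ hK hS).1
  have three : ∀ A A' : Set Str, InNP B A → VisibleComplete B A' →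
      ∃ f : Str → Str, Strong B A A' f := by
    intro A A' hA hA'
    obtain ⟨L, hL, hall⟩ := one A hA
    obtain ⟨g, g₀, hK, hS, hV⟩ := hA'.2 L hL
    exact (hall A' g g₀ hK hS).2 hV
  refine ⟨one, fun A A' hA hA' => ⟨two A A' hA.1 hA', two A' A hA'.1 hA⟩, fun A A' hA hA' => ?_,
    Uni B, t_UNP B, t_UNC B, fun φ hφ hi hh => ⟨image_np B _ φ hφ hh (t_UNP B), fun L hL => ?_⟩⟩
  · obtain ⟨f, hf⟩ := three A A' hA.1 hA'
    obtain ⟨g, hg⟩ := three A' A hA'.1 hA
    exact t_PIS B A A' f g hf hg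
  · obtain ⟨g, hK, hg⟩ := t_UNC B L hL
    obtain ⟨h1, h2⟩ := image_shadow B L (Uni B) g φ hK
      ⟨hK.1, Or.inl (low_of_one g hg)⟩ hφ hi hh
    exact ⟨_, g, h1, h2⟩

end Pool.SF
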