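import Pool.Agent.Work.MP_cb380d_sf.Shadow

/-!
# MP_cb380d_lc, SimpleShadows: proofs
-/

set_option autoImplicit false

open Pool.IC Pool.GL Pool.TL Pool.EV Polynomial

namespace Pool.SF

theorem size_bound {B : Set Str} {g : Str → Str} (hg : PolyF B g) :
    ∃ p : Polynomial ℕ, ∀ z : Str, (g z).length ≤ p.eval z.length := by
  obtain ⟨q, hq⟩ := hg.size
  refine ⟨q.comp (Polynomial.C 4 * Polynomial.X), fun z => ?_⟩
  have h := hq z
  rw [sz_str, sz_str] at h
  rw [Polynomial.eval_comp, Polynomial.eval_mul, Polynomial.eval_C, Polynomial.eval_X]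
  omega

/-- The final string of the run is computed in polynomial time. -/
theorem poly_zf (B : Set Str) (g : Str → Str) (esc : Str × List ℕ × ℕ × ℕ → Str) (t a E : ℕ)
    (hg : PolyF B g) (hesc : PolyF B esc) :
    PolyF B (fun x : Str => zf g esc (chE g (wd x (st a E x.length)))
      (st a E x.length) (st a E x.length ^ t)) := by
  obtain ⟨-, -, -, hdcd, -, -, -, hwd, -, -, -, -, hes⟩ := t_PLF B
  have hes' := hes esc hesc
  have hst := t_PSS B a E
  have hcE : PolyF B (fun p : List (Option Bool) × ℕ × Str × Str × ℕ =>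
      chE g p.1 p.2.1 p.2.2.1 p.2.2.2.1 p.2.2.2.2) := by
    show PolyF B (fun p : List (Option Bool) × ℕ × Str × Str × ℕ =>
      (p.1.getD p.2.1 none).getD ((g p.2.2.1)[p.2.2.2.2]?).isNone)
    fun_prop
  have hrE := t_PST B g esc hg hesc (List (Option Bool)) (chE g) hcE
  have hpow : PolyF B (fun n : ℕ => st a E n ^ t) := PolyF.pow hst t
  have hν : PolyF B (fun x : Str => st a E x.length) :=
    PolyF.comp (f := fun n : ℕ => st a E n) (g := fun x : Str => x.length) hst (by fun_prop)
  have hK : PolyF B (fun x : Str => st a E x.length ^ t) :=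
    PolyF.comp (f := fun n : ℕ => st a E n ^ t) (g := fun x : Str => x.length) hpow (by fun_prop)
  have hw : PolyF B (fun x : Str => wd x (st a E x.length)) :=
    PolyF.comp (f := fun p : Str × ℕ => wd p.1 p.2) (g := fun x : Str => (x, st a E x.length))
      hwd (PolyF.pair (by fun_prop) hν)
  have hR : PolyF B (fun x : Str => rn g esc (chE g (wd x (st a E x.length))) (st a E x.length)
      (st a E x.length ^ t) (st a E x.length - 1)) :=
    PolyF.comp (f := fun p : List (Option Bool) × ℕ × ℕ × ℕ =>
        rn g esc (chE g p.1) p.2.1 p.2.2.1 p.2.2.2)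
      (g := fun x : Str => (wd x (st a E x.length), st a E x.length,
        st a E x.length ^ t, st a E x.length - 1)) hrE
      (PolyF.pair hw (PolyF.pair hν (PolyF.pair hK (PolyF.pred hν))))
  have hlo : PolyF B (fun x : Str => lo (st a E x.length) (st a E x.length ^ t) 0) := by
    have h1 : PolyF B (fun x : Str => st a E x.length + st a E x.length ^ t + 2) :=
      PolyF.add (PolyF.add hν hK) (PolyF.const 2)
    refine h1.congrF fun x => ?_
    unfold lo
    ring
  exact PolyF.comp (f := fun p : Str × List ℕ × ℕ × ℕ => es esc p.1 p.2.1 p.2.2.1 p.2.2.2)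
      (g := fun x : Str =>
        ((rn g esc (chE g (wd x (st a E x.length))) (st a E x.length)
          (st a E x.length ^ t) (st a E x.length - 1)).1,
        (rn g esc (chE g (wd x (st a E x.length))) (st a E x.length)
          (st a E x.length ^ t) (st a E x.length - 1)).2.1,
        lo (st a E x.length) (st a E x.length ^ t) 0, st a E x.length ^ t)) hes'
      (PolyF.pair (PolyF.fst hR) (PolyF.pair (PolyF.fst (PolyF.snd hR)) (PolyF.pair hlo hK)))

/-- The embedding for evasive functions. -/
theorem emb_evasive (B D : Set Str) (g : Str → Str) (hg : PolyF B g) (hE : Evasive B g)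
    (hs : ∀ z z' : Str, g z = g z' → (z ∈ lang D ↔ z' ∈ lang D)) : Emb B D (lang D) g := by
  obtain ⟨p, hp⟩ := size_bound hg
  obtain ⟨esc, t, a, E, hesc, hE2, ha, hall⟩ := t_ESC B g p hE
  have hsep : Sep g D := by
    intro z z' hzz' he
    have h1 := hs z z' he
    by_cases hz : z ∈ lang D
    · exact (hzz'.1 hz) (h1.1 hz)
    · have hz' : z' ∈ lang D := by
        by_contra hcon
        exact hz (hzz'.2 hcon)
      exact hz (h1.2 hz')
  obtain ⟨h1, h2, h3⟩ := t_FFF g esc D t a E p hsep hE2 ha hp hall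
  obtain ⟨-, hf'⟩ := t_PFF B g esc t a E hg hesc
  exact ⟨fun x : Str => zf g esc (chE g (wd x (st a E x.length)))
      (st a E x.length) (st a E x.length ^ t), fi g esc t a E, poly_zf B g esc t a E hg hesc, hf',
    h3, h2, fun x => (h1 x).symm⟩

/-- The embedding for functions of the five kinds. -/
theorem emb_good (B D : Set Str) (g : Str → Str) (hg : PolyF B g) (hG : Good6 B g)
    (hs : ∀ z z' : Str, g z = g z' → (z ∈ lang3 D ↔ z' ∈ lang3 D)) : Emb B D (lang3 D) g := by
  have key : Evasive B g → Emb B D (lang3 D) g := by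
    intro hE
    have hgv : PolyF B (fun v : Str => g (true :: false :: v)) :=
      PolyF.comp (f := g) (g := fun v : Str => true :: false :: v) hg (by fun_prop)
    have hc : ∀ v : Str, (true :: false :: v ∈ lang3 D ↔ v ∈ lang D) := by
      intro v
      show con (true :: false :: v) ∈ lang D ↔ v ∈ lang D
      rw [t_CNX.2.1 v]
    obtain ⟨ζ, r, h1, h2, h3, h4, h5⟩ := emb_evasive B D (fun v : Str => g (true :: false :: v))
      hgv (t_EV0 B g hE) (fun v v' he => by
        rw [← hc v, ← hc v']
        exact hs _ _ he)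
    refine ⟨fun x => true :: false :: ζ x, r, by fun_prop, h2, h3, h4, fun x => ?_⟩
    rw [hc (ζ x)]
    exact h5 x
  rcases hG with h | h | h | h | h
  · exact key (t_EVA B g hg h)
  · exact key (t_EVX B g hg h)
  · exact key (t_EVC B g hg h)
  · obtain ⟨φ, a, hφ, hcon, hcert⟩ := t_CER B g h
    have hgφ : PolyF B (fun v : Str => g (φ v)) := PolyF.comp (f := g) (g := φ) hg hφ
    have hc : ∀ v : Str, (φ v ∈ lang3 D ↔ v ∈ lang D) := by
      intro v
      show con (φ v) ∈ lang D ↔ v ∈ lang D
      rw [hcon v]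
      exact t_LNI D v a
    obtain ⟨ζ, r, h1, h2, h3, h4, h5⟩ := emb_evasive B D (fun v : Str => g (φ v))
      hgφ (t_EVX B _ hgφ hcert) (fun v v' he => by
        rw [← hc v, ← hc v']
        exact hs _ _ he)
    refine ⟨fun x => φ (ζ x), r, PolyF.comp (f := φ) (g := ζ) hφ h1, h2, h3, h4, fun x => ?_⟩
    rw [hc (ζ x)]
    exact h5 x
  · exact key h

/-- The padded set. -/
def pds (D : Set Str) : Set Str := {w | rst w ∈ D}

/-- Padding with `m` ones. -/
def pad (h : Polynomial ℕ) (x : Str) : Str := un (h.eval x.length) ++ false :: x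

theorem rst_length (z : Str) : (rst z).length ≤ z.length := by
  unfold rst
  rw [List.length_drop]
  exact Nat.sub_le _ _

theorem pds_np (B D : Set Str) (hD : InNP B D) : InNP B (pds D) := by
  obtain ⟨V, r, hV, hr, hVD⟩ := t_NPD B D hD
  obtain ⟨-, hrst, -⟩ := t_PLF B
  refine t_NPE B (pds D) (fun p => V (p.1, rst p.2)) r ?_ ?_ ?_
  · fun_prop
  · intro y z h
    exact (hr _ _ h).trans (poly_mono r (rst_length z))
  · intro z
    exact hVD (rst z)

theorem pad_poly (B : Set Str) (h : Polynomial ℕ) : PolyF B (pad h) := by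
  have h1 : PolyF B (fun x : Str => h.eval x.length) := PolyF.polyEval h (by fun_prop)
  show PolyF B (fun x : Str => List.replicate (h.eval x.length) true ++ false :: x)
  fun_prop

theorem pad_rst (h : Polynomial ℕ) (x : Str) : rst (pad h x) = x := HVA_rst _ _

theorem pad_length (h : Polynomial ℕ) (x : Str) : h.eval x.length < (pad h x).length := by
  unfold pad
  rw [List.length_append, List.length_cons, List.length_replicate]
  omega

theorem li_of_bound {h : Polynomial ℕ} {x : Str} {u v : ℕ}
    (h1 : (pad h x).length < u) (h2 : u ≤ h.eval v) : x.length < v := by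
  by_contra hcon
  have h3 : h.eval v ≤ h.eval x.length := poly_mono h (by omega)
  have h4 := pad_length h x
  omega

/-- The main part. -/
theorem main (B D : Set Str) (A : Set Str) (g g₀ : Str → Str)
    (hK : Karp B (lang3 (pds D)) A g) (hS : Shadow B (lang3 (pds D)) g g₀) :
    (∃ f, OneLi B D A f) ∧ (Visible B g g₀ → ∃ f, Strong B D A f) := by
  obtain ⟨⟨hg₀, hG⟩, hdet, hsep, h, hh⟩ := hS
  have hG' : Good6 B g₀ := by
    rcases hG with h | h | h | h
    · exact Or.inl h
    · exact Or.inr (Or.inl h)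
    · exact Or.inr (Or.inr (Or.inl h))
    · exact Or.inr (Or.inr (Or.inr (Or.inl h)))
  have hgP : PolyF B g := (polyFun_iff_polyF g).1 hK.1
  obtain ⟨ζ, r, hζ, hr, hrz, hlen, hmem⟩ :=
    emb_good B (pds D) g₀ ((polyFun_iff_polyF g₀).1 hg₀) hG' hsep
  have hpad := pad_poly B h
  have hf : PolyFun B (fun x => g (ζ (pad h x))) := (polyFun_iff_polyF _).2 (by fun_prop)
  have hkarp : Karp B D A (fun x => g (ζ (pad h x))) := by
    refine ⟨hf, fun x => ?_⟩
    rw [← hK.2 (ζ (pad h x)), ← hmem (pad h x)]
    show x ∈ D ↔ rst (pad h x) ∈ D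
    rw [pad_rst]
  have hli : ∀ x : Str, x.length < (g (ζ (pad h x))).length := fun x =>
    li_of_bound (hlen (pad h x)) (hh (ζ (pad h x)))
  refine ⟨⟨_, hkarp, fun x x' he => ?_, hli⟩, fun hv => ?_⟩
  · have h1 := hdet _ _ he
    have h2 : pad h x = pad h x' := by rw [← hrz (pad h x), ← hrz (pad h x'), h1]
    rw [← pad_rst h x, ← pad_rst h x', h2]
  · obtain ⟨s, hs, hsg⟩ := hv
    have hsP : PolyF B s := (polyFun_iff_polyF s).1 hs
    obtain ⟨-, hrst, -⟩ := t_PLF B
    refine ⟨_, hkarp, hli, fun y => rst (r (s y)), (polyFun_iff_polyF _).2 (by fun_prop),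
      fun x => ?_⟩
    show rst (r (s (g (ζ (pad h x))))) = x
    rw [hsg, hrz, pad_rst]

end Pool.SF
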