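import Pool.Agent.Work.MP_cb380d_ev.Final2

/-!
# MP_cb380d_lc, SimpleShadows: definitions

Model of computation: `Pool/Agent/Work/OracleCmd_h91/Cmd.lean` (programs on stacks of bits);
`PolyFun`, `Karp`, `InNP`, `Honest`: `Pool/Agent/Work/MP_cb380d_h91/Model.lean`; `PolyF B f`
(polynomial time on the encodings of numbers in unary, pairs and lists):
`Pool/Agent/Work/OracleTyped_h80/Base.lean`; `Strong`, `LowSensitivity`, `BoundedDegree`, `PIso`:
`Pool/Agent/Work/MP_cb380d_ev/Defs.lean`; `IsModPoly`: `Defs2.lean`; `Certificates`: `Defs3.lean`;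
`circ`, `cnt`, `ModularCircuits`: `Defs4.lean` (same folder).
-/

set_option autoImplicit false

open Pool.IC Pool.GL Pool.TL Pool.EV Polynomial

namespace Pool.SF

/-- `g₀` is a polynomial-time function of one of four kinds: low sensitivity; certificates of
`N ^ (1 - 1/k)` parities and `N ^ o(1)` polynomials of bounded degree modulo `m`; bounded degree over
the field with two elements; modular circuits: `N ^ o(1)` gates that count modulo `m` the true gates
in sets of gates of a polynomial-time constructible circuit of constant depth and unbounded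
fan-in. -/
def Simple (B : Set Str) (g₀ : Str → Str) : Prop :=
  PolyFun B g₀ ∧
    (LowSensitivity g₀ ∨ Certificates B g₀ ∨ BoundedDegree g₀ ∨ ModularCircuits B g₀)

/-- `g₀` is a shadow of the function `g` for the set `L`: it is simple, `g z` determines `g₀ z`
(perhaps not in polynomial time), `g₀ z` determines whether `z` is in `L`, and the length of `g₀ z`
is bounded by a polynomial in the length of `g z`. -/
def Shadow (B L : Set Str) (g g₀ : Str → Str) : Prop :=
  Simple B g₀ ∧ (∀ z z' : Str, g z = g z' → g₀ z = g₀ z') ∧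
    (∀ z z' : Str, g₀ z = g₀ z' → (z ∈ L ↔ z' ∈ L)) ∧
    ∃ h : Polynomial ℕ, ∀ z : Str, (g₀ z).length ≤ h.eval (g z).length

/-- The shadow `g₀ z` can be computed in polynomial time from `g z`. -/
def Visible (B : Set Str) (g g₀ : Str → Str) : Prop :=
  ∃ r : Str → Str, PolyFun B r ∧ ∀ z : Str, r (g z) = g₀ z

/-- `f` is a one-one, length-increasing polynomial-time many-one reduction of `D` to `A`. -/
def OneLi (B D A : Set Str) (f : Str → Str) : Prop :=
  Karp B D A f ∧ Function.Injective f ∧ ∀ x : Str, x.length < (f x).length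

/-- `A` and `A'` are pseudo p-isomorphic relative to `B`. -/
def PseudoIso (B A A' : Set Str) : Prop :=
  (∃ f : Str → Str, OneLi B A A' f) ∧ ∃ f : Str → Str, OneLi B A' A f

/-- `A` is complete for NP relative to `B` under reductions with shadows. -/
def ShadowComplete (B A : Set Str) : Prop :=
  InNP B A ∧ ∀ L : Set Str, InNP B L → ∃ g g₀ : Str → Str, Karp B L A g ∧ Shadow B L g g₀

/-- `A` is complete for NP relative to `B` under reductions with visible shadows. -/
def VisibleComplete (B A : Set Str) : Prop :=
  InNP B A ∧ ∀ L : Set Str, InNP B L →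
    ∃ g g₀ : Str → Str, Karp B L A g ∧ Shadow B L g g₀ ∧ Visible B g g₀

/-- The embedding of `D` into the set `L` for the function `g₀`: `g₀ ∘ ζ` is length-increasing and
has the polynomial-time left inverse `r`. -/
def Emb (B D L : Set Str) (g₀ : Str → Str) : Prop :=
  ∃ ζ r : Str → Str, PolyF B ζ ∧ PolyF B r ∧ (∀ x : Str, r (g₀ (ζ x)) = x) ∧
    (∀ x : Str, x.length < (g₀ (ζ x)).length) ∧ ∀ x : Str, x ∈ D ↔ ζ x ∈ L

end Pool.SF
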